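import Pool.Agent.helper5.IH.Spec

/-! Project ih, row HC2: every Hamiltonian cycle has two directions. -/

set_option autoImplicit false

namespace Pool.Agent.IH
open Finset CT SYM

section HC2
variable {V : Type}

/-- The graph of a permutation. -/
def HC2_F (σ : Equiv.Perm V) : SimpleGraph V :=
  SimpleGraph.fromRel fun v w => σ v = w

theorem HC2_adj (σ : Equiv.Perm V) (v w : V) :
    (HC2_F σ).Adj v w ↔ v ≠ w ∧ (σ v = w ∨ σ w = v) := by
  unfold HC2_F
  rw [SimpleGraph.fromRel_adj]

theorem HC2_pow [Finite V] (σ : Equiv.Perm V) (u w : V) (h : σ.SameCycle u w) :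
    ∃ i : ℕ, (σ ^ i) u = w := by
  obtain ⟨i, _, _, hi⟩ := h.exists_pow_eq''
  exact ⟨i, hi⟩

theorem HC2_sq [Fintype V] (σ : Equiv.Perm V) (hc : 3 ≤ Fintype.card V)
    (hs : ∀ u w, σ.SameCycle u w) (v : V) : σ (σ v) ≠ v := by
  classical
  intro h
  have key : ∀ w : V, w = v ∨ w = σ v := by
    intro w
    obtain ⟨i, hi⟩ := HC2_pow σ v w (hs v w)
    have : ∀ j : ℕ, (σ ^ j) v = v ∨ (σ ^ j) v = σ v := by
      intro j
      induction j with
      | zero => left; simp
      | succ j ih =>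
        rw [pow_succ', Equiv.Perm.mul_apply]
        rcases ih with ih | ih
        · right; rw [ih]
        · left; rw [ih, h]
    rw [← hi]
    exact this i
  have h2 : (Finset.univ : Finset V) ⊆ {v, σ v} := by
    intro w _
    rcases key w with h | h
    · simp [← h]
    · simp [← h]
  have h3 := Finset.card_le_card h2
  have h4 : ({v, σ v} : Finset V).card ≤ 2 := Finset.card_le_two
  rw [Finset.card_univ] at h3
  omega

theorem HC2_nb [Fintype V] (σ : Equiv.Perm V) (hc : 3 ≤ Fintype.card V)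
    (hm : ∀ w, σ w ≠ w) (v w : V) :
    (HC2_F σ).Adj v w ↔ (w = σ v ∨ w = σ⁻¹ v) := by
  rw [HC2_adj]
  constructor
  · rintro ⟨_, h | h⟩
    · left; exact h.symm
    · right; rw [← h]; simp
  · rintro (h | h)
    · rw [h]; exact ⟨(hm v).symm, Or.inl rfl⟩
    · rw [h]
      refine ⟨?_, Or.inr (by simp)⟩
      intro h2
      apply hm v
      have h3 := congrArg σ h2
      simpa using h3

theorem HC2_inv [Fintype V] (σ : Equiv.Perm V) : HC2_F σ⁻¹ = HC2_F σ := by
  ext v w
  rw [HC2_adj, HC2_adj]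
  constructor
  · rintro ⟨h1, h | h⟩
    · refine ⟨h1, Or.inr ?_⟩
      rw [← h]; simp
    · refine ⟨h1, Or.inl ?_⟩
      rw [← h]; simp
  · rintro ⟨h1, h | h⟩
    · refine ⟨h1, Or.inr ?_⟩
      rw [← h]; simp
    · refine ⟨h1, Or.inl ?_⟩
      rw [← h]; simp

theorem HC2_card [Fintype V] (σ : Equiv.Perm V) (hc : 3 ≤ Fintype.card V)
    (hm : ∀ w, σ w ≠ w) (hs : ∀ u w, σ.SameCycle u w) (v : V) :
    Nat.card {w // (HC2_F σ).Adj v w} = 2 := by
  rw [Nat.card_eq_two_iff]
  refine ⟨⟨σ v, (HC2_nb σ hc hm v _).2 (Or.inl rfl)⟩, ⟨σ⁻¹ v, (HC2_nb σ hc hm v _).2 (Or.inr rfl)⟩,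
    ?_, ?_⟩
  · intro h
    have h1 : σ v = σ⁻¹ v := congrArg Subtype.val h
    apply HC2_sq σ hc hs v
    rw [h1]
    simp
  · rw [Set.eq_univ_iff_forall]
    rintro ⟨w, hw⟩
    rcases (HC2_nb σ hc hm v w).1 hw with h | h
    · left; exact Subtype.ext h
    · right; exact Subtype.ext h

theorem HC2_conn [Fintype V] (σ : Equiv.Perm V) (hc : 3 ≤ Fintype.card V)
    (hm : ∀ w, σ w ≠ w) (hs : ∀ u w, σ.SameCycle u w) : (HC2_F σ).Connected := by
  have hne : Nonempty V := by
    rw [← Fintype.card_pos_iff]; omega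
  refine ⟨?_⟩
  intro u w
  obtain ⟨i, hi⟩ := HC2_pow σ u w (hs u w)
  have : ∀ j : ℕ, (HC2_F σ).Reachable u ((σ ^ j) u) := by
    intro j
    induction j with
    | zero => simp
    | succ j ih =>
      refine ih.trans ?_
      rw [pow_succ', Equiv.Perm.mul_apply]
      exact SimpleGraph.Adj.reachable ((HC2_nb σ hc hm _ _).2 (Or.inl rfl))
  rw [← hi]
  exact this i

theorem HC2_uniq [Fintype V] (σ σ' : Equiv.Perm V) (hc : 3 ≤ Fintype.card V)
    (hm : ∀ w, σ w ≠ w) (hm' : ∀ w, σ' w ≠ w) (hs : ∀ u w, σ.SameCycle u w)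
    (hF : HC2_F σ = HC2_F σ') (v : V) (hv : σ v = σ' v) : σ = σ' := by
  have key : ∀ i : ℕ, σ ((σ ^ i) v) = σ' ((σ ^ i) v) := by
    intro i
    induction i with
    | zero => simpa using hv
    | succ i ih =>
      rw [pow_succ', Equiv.Perm.mul_apply]
      set x := (σ ^ i) v with hx
      have h1 : (HC2_F σ').Adj (σ x) (σ (σ x)) := by
        rw [← hF]
        exact (HC2_nb σ hc hm _ _).2 (Or.inl rfl)
      rcases (HC2_nb σ' hc hm' _ _).1 h1 with h | h
      · exact h
      · exfalso
        rw [ih] at h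
        have h2 : σ (σ' x) = x := by
          rw [h]; simp
        rw [← ih] at h2
        exact HC2_sq σ hc hs x h2
  ext w
  obtain ⟨i, hi⟩ := HC2_pow σ v w (hs v w)
  rw [← hi]
  exact key i

theorem HC2_exist [Fintype V] (F : SimpleGraph V) (hc : F.Connected)
    (h2 : ∀ v, Nat.card {w // F.Adj v w} = 2) :
    ∃ σ : Equiv.Perm V, (∀ w, F.Adj w (σ w)) ∧ ∀ u w, σ.SameCycle u w := by
  classical
  obtain ⟨v⟩ := hc.nonempty
  have hcyc : F.IsCycles := by
    intro w _
    exact h2 w
  have hne : (F.neighborSet v).Nonempty := by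
    have h3 := h2 v
    have h4 : Nonempty {w // F.Adj v w} := by
      by_contra hcon
      rw [not_nonempty_iff] at hcon
      rw [Nat.card_of_isEmpty] at h3
      omega
    obtain ⟨w, hw⟩ := h4
    exact ⟨w, hw⟩
  obtain ⟨p, hp, hps⟩ := hcyc.exists_cycle_toSubgraph_verts_eq_connectedComponentSupp
    (c := F.connectedComponentMk v) (v := v) (by simp) hne
  have hall : ∀ w, w ∈ p.support := by
    intro w
    rw [← SimpleGraph.Walk.mem_verts_toSubgraph, hps]
    exact (SimpleGraph.ConnectedComponent.eq).2 (hc.preconnected w v)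
  set l := p.support.tail with hl
  have hnd : l.Nodup := hp.support_nodup
  have hmem : ∀ w, w ∈ l := by
    intro w
    by_cases hwv : w = v
    · rw [hwv]
      exact SimpleGraph.Walk.end_mem_tail_support hp.not_nil
    · have := hall w
      rw [SimpleGraph.Walk.mem_support_iff] at this
      rcases this with h | h
      · exact absurd h hwv
      · exact h
  have hlen : l.length = p.length := by
    rw [hl, List.length_tail, SimpleGraph.Walk.length_support]
    omega
  have hget : ∀ i (hi : i < l.length), l[i] = p.getVert (i + 1) := by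
    intro i hi
    rw [SimpleGraph.Walk.getVert_eq_support_getElem p (by omega)]
    simp [hl]
  refine ⟨l.formPerm, ?_, ?_⟩
  · intro w
    obtain ⟨i, hi, hiw⟩ := List.getElem_of_mem (hmem w)
    rw [← hiw, List.formPerm_apply_getElem l hnd i hi, hget, hget]
    by_cases h : i + 1 < l.length
    · rw [Nat.mod_eq_of_lt h]
      exact p.adj_getVert_succ (by omega)
    · have h3 : i + 1 = l.length := by omega
      rw [h3, Nat.mod_self, hlen, p.getVert_length]
      have := p.adj_getVert_succ (i := 0) (by omega)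
      rw [p.getVert_zero] at this
      exact this
  · intro u w
    exact (hnd.isCycleOn_formPerm).2 (hmem u) (hmem w)

end HC2

theorem HC2 : HC2_stmt := by
  classical
  intro V _ _ H hc
  unfold Hc numHam
  have hne : Nonempty V := by
    rw [← Fintype.card_pos_iff]; omega
  obtain ⟨v0⟩ := hne
  let S := {σ : Equiv.Perm V // (∀ w, H.Adj w (σ w)) ∧ ∀ u w, σ.SameCycle u w}
  let T := {F : SimpleGraph V // F ≤ H ∧ F.Connected ∧ ∀ v, Nat.card {w // F.Adj v w} = 2}
  change Nat.card S = 2 * Nat.card T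
  have hmv : ∀ s : S, ∀ w, s.1 w ≠ w := fun s w h => (s.2.1 w).ne h.symm
  let Φ : S → T := fun s => ⟨HC2_F s.1, by
    refine ⟨?_, HC2_conn s.1 hc (hmv s) s.2.2, fun v => HC2_card s.1 hc (hmv s) s.2.2 v⟩
    intro v w h
    rw [HC2_adj] at h
    rcases h.2 with h | h
    · rw [← h]; exact s.2.1 v
    · rw [← h]; exact (s.2.1 w).symm⟩
  have hfib : ∀ F : T, Nat.card {s : S // Φ s = F} = 2 := by
    intro F
    obtain ⟨σ, hσ1, hσ2⟩ := HC2_exist F.1 F.2.2.1 F.2.2.2
    have hσm : ∀ w, σ w ≠ w := fun w h => (hσ1 w).ne h.symm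
    have hσH : ∀ w, H.Adj w (σ w) := fun w => F.2.1 (hσ1 w)
    have hFσ : HC2_F σ = F.1 := by
      have hle : HC2_F σ ≤ F.1 := by
        intro v w h
        rw [HC2_adj] at h
        rcases h.2 with h | h
        · rw [← h]; exact hσ1 v
        · rw [← h]; exact (hσ1 w).symm
      ext v w
      constructor
      · intro h; exact hle h
      · intro h
        have hsub : {w | (HC2_F σ).Adj v w} ⊆ {w | F.1.Adj v w} := fun w h => hle h
        have heq : {w | (HC2_F σ).Adj v w} = {w | F.1.Adj v w} := by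
          refine Set.eq_of_subset_of_ncard_le hsub ?_ (Set.toFinite _)
          have h1 := HC2_card σ hc hσm hσ2 v
          have h2 := F.2.2.2 v
          change ({w | F.1.Adj v w} : Set V).ncard ≤ ({w | (HC2_F σ).Adj v w} : Set V).ncard
          rw [← Nat.card_coe_set_eq, ← Nat.card_coe_set_eq]
          change Nat.card {w // F.1.Adj v w} ≤ Nat.card {w // (HC2_F σ).Adj v w}
          omega
        have h3 : w ∈ {w | F.1.Adj v w} := h
        rw [← heq] at h3
        exact h3
    have hiH : ∀ w, H.Adj w (σ⁻¹ w) := by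
      intro w
      have := (hσH (σ⁻¹ w)).symm
      simpa using this
    have hi2 : ∀ u w, (σ⁻¹).SameCycle u w := fun u w => (hσ2 u w).inv
    let s1 : S := ⟨σ, hσH, hσ2⟩
    let s2 : S := ⟨σ⁻¹, hiH, hi2⟩
    have hs1 : Φ s1 = F := Subtype.ext hFσ
    have hs2 : Φ s2 = F := Subtype.ext ((HC2_inv σ).trans hFσ)
    have hsq : σ v0 ≠ σ⁻¹ v0 := by
      intro h
      apply HC2_sq σ hc hσ2 v0
      rw [h]; simp
    rw [Nat.card_eq_two_iff]
    refine ⟨⟨s1, hs1⟩, ⟨s2, hs2⟩, ?_, ?_⟩
    · intro h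
      have h1 : s1 = s2 := congrArg Subtype.val h
      have h2 : σ = σ⁻¹ := congrArg Subtype.val h1
      apply hsq
      exact congrArg (fun τ : Equiv.Perm V => τ v0) h2
    · rw [Set.eq_univ_iff_forall]
      rintro ⟨s, hs⟩
      have hFs : HC2_F s.1 = HC2_F σ := by
        have := congrArg Subtype.val hs
        exact this.trans hFσ.symm
      have hadj : (HC2_F σ).Adj v0 (s.1 v0) := by
        rw [← hFs]
        exact (HC2_nb s.1 hc (hmv s) _ _).2 (Or.inl rfl)
      rcases (HC2_nb σ hc hσm _ _).1 hadj with h | h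
      · left
        apply Subtype.ext
        apply Subtype.ext
        exact HC2_uniq s.1 σ hc (hmv s) hσm s.2.2 hFs v0 h
      · right
        apply Subtype.ext
        apply Subtype.ext
        refine HC2_uniq s.1 σ⁻¹ hc (hmv s) (hmv s2) s.2.2 (hFs.trans (HC2_inv σ).symm) v0 h
  rw [Nat.card_congr (Equiv.sigmaFiberEquiv Φ).symm, Nat.card_sigma]
  rw [Finset.sum_congr rfl (fun F _ => hfib F)]
  rw [Finset.sum_const, Finset.card_univ, Nat.card_eq_fintype_card, smul_eq_mul, mul_comm]

end Pool.Agent.IH
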